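import Pool.Agent.H26.NO.Targets

/-!
# Row FA of nok_modules: the family of factorisations
-/

set_option autoImplicit false

open Finset

namespace Pool.Agent.H99.NOK

open Pool.Agent.H26.NO

theorem fa_n1 {K lam l : ℝ} (hK : 100 ≤ K) (hlam : K ≤ lam) (h : K * lam ^ 2 ≤ l) :
    K * lam ≤ l ∧ K ≤ l ∧ 100 ≤ l ∧ 100 * lam ≤ l := by
  have h1 : K * lam ≤ K * lam ^ 2 := by nlinarith
  have h2 : K ≤ K * lam := by nlinarith
  have h3 : 100 * lam ≤ K * lam := by nlinarith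
  exact ⟨by linarith, by linarith, by linarith, by linarith⟩

theorem fa_n2 {K l s : ℝ} (hK : 100 ≤ K) (hl : 100 ≤ l) (h : K * l ^ 4 ≤ s) :
    100 * l ^ 4 ≤ s ∧ 100 * l ≤ s := by
  have h0 : 0 ≤ l ^ 4 := by positivity
  have h1 : l ≤ l ^ 4 := by
    calc l = l ^ 1 := (pow_one l).symm
      _ ≤ l ^ 4 := pow_le_pow_right₀ (by linarith) (by norm_num)
  have h2 : 100 * l ^ 4 ≤ K * l ^ 4 := mul_le_mul_of_nonneg_right hK h0
  exact ⟨by linarith, by linarith⟩

theorem fa_n3 {R l s : ℝ} (hl : 0 ≤ l) (h : R * (20 * l) ≤ s) :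
    R * (4 * l ^ 2) ≤ s * l / 5 := by
  have h1 : R * (4 * l ^ 2) = (R * (20 * l)) * (l / 5) := by ring
  rw [h1]
  have h2 := mul_le_mul_of_nonneg_right h (by positivity : 0 ≤ l / 5)
  linarith

theorem fa_n4 {K l : ℝ} (hl : 100 ≤ l) (hKl : K ≤ l) : 1 ≤ 4 * l ^ 2 ∧ K ≤ 4 * l ^ 2 ∧
    l ≤ 4 * l ^ 2 / 8 := by
  have h1 : l ≤ l ^ 2 := by nlinarith
  have h2 : 100 * l ≤ l ^ 2 := by nlinarith
  exact ⟨by linarith, by linarith, by linarith⟩

theorem fa_n6 {R j H : ℝ} (hj : j + 1 ≤ R) (hH : 0 ≤ H) : (R + j + 1) * H ≤ 2 * R * H :=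
  mul_le_mul_of_nonneg_right (by linarith) hH

theorem fa_n10 {R l s : ℝ} (hR : 0 ≤ R) (hl : 0 ≤ l) (h : R * (20 * l) ≤ s) :
    R * (R * (4 * l ^ 2)) ≤ s ^ 2 / 100 := by
  have h1 : R * (R * (4 * l ^ 2)) = (R * (20 * l)) ^ 2 / 100 := by ring
  have h2 : (R * (20 * l)) ^ 2 ≤ s ^ 2 := pow_le_pow_left₀ (by positivity) h 2
  rw [h1]
  linarith

theorem fa_n11 {R l s : ℝ} (hR : 0 ≤ R) (hs : 0 ≤ s) (hl : 100 ≤ l) (h : R * (20 * l) ≤ s)
    (h2 : 100 * l ≤ s) : R + 3 * R * (4 * l ^ 2) ≤ 1 / 100 * s ^ 2 := by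
  have h3 := fa_n3 (by linarith) h
  have h4 : R ≤ R * (4 * l ^ 2) := by
    have := mul_le_mul_of_nonneg_left (fa_n4 hl le_rfl).1 hR
    linarith
  have h5 : s * (100 * l) ≤ s * s := mul_le_mul_of_nonneg_left h2 hs
  have h6 : R + 3 * R * (4 * l ^ 2) ≤ 4 * (s * l / 5) := by linarith
  nlinarith

theorem fa_n14 {R l w : ℝ} (hR : 1 ≤ R) (hl : 100 ≤ l) (hw : w < 4 * l + 1) :
    2 + (3 * (l / 2) + R * (w + 1) * (l / 2)) ≤ R * (4 * l ^ 2) := by
  have h7 : w + 1 ≤ 4 * l + 2 := by linarith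
  have h8 : R * (w + 1) * (l / 2) ≤ R * (4 * l + 2) * (l / 2) := by gcongr
  have h9 : R * (4 * l + 2) * (l / 2) = R * (2 * l ^ 2 + l) := by ring
  have h10 : 2 + 3 * (l / 2) ≤ R * (2 + 3 * (l / 2)) := by nlinarith
  have h11 : R * (2 + 3 * (l / 2)) + R * (2 * l ^ 2 + l) ≤ R * (4 * l ^ 2) := by
    rw [← mul_add]
    apply mul_le_mul_of_nonneg_left _ (by linarith)
    nlinarith
  linarith

theorem fa_exp2 : (4 : ℝ) ≤ Real.exp 2 := by
  have h5 : Real.exp 2 = Real.exp 1 * Real.exp 1 := by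
    rw [← Real.exp_add]
    norm_num
  have h6 := Real.add_one_le_exp (1 : ℝ)
  rw [h5]
  nlinarith

theorem fa_mq {r : ℕ} (A : Fin r → Finset ℕ) :
    mq A = ∏ i, ∑ a ∈ A i, (1 : ℝ) / a := by
  unfold mq Qf
  rw [Finset.prod_univ_sum]
  refine Finset.sum_congr rfl fun a _ => ?_
  push_cast
  rw [Finset.prod_div_distrib, Finset.prod_const_one]

theorem fa_LW {u v : ℝ} {p : ℕ} (hp : p ∈ LW u v) :
    p.Prime ∧ Real.exp u < p ∧ (p : ℝ) ≤ Real.exp v := by
  unfold LW at hp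
  rw [Finset.mem_filter, Finset.mem_Ioc] at hp
  exact ⟨hp.2, Nat.lt_of_floor_lt hp.1.1,
    (Nat.cast_le.2 hp.1.2).trans (Nat.floor_le (Real.exp_pos v).le)⟩

theorem fa_LW_disj {u v u' v' : ℝ} (h : v ≤ u') : Disjoint (LW u v) (LW u' v') := by
  rw [Finset.disjoint_left]
  intro p hp hp'
  have h1 := (fa_LW hp).2.2
  have h2 := (fa_LW hp').2.1
  have h3 := Real.exp_le_exp.2 h
  linarith

/-- The sum of `1/m` over `MM`. -/
theorem fa_M (C' R l : ℝ) (w : ℕ) (hl : 4 ≤ l) (hC' : Real.log l + C' ≤ l / 2)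
    (s : ℝ) (hs : Real.log s = l / 2) (hs0 : 0 < s) (hRs : R * (4 * l ^ 2) ≤ s * l)
    (hR : 1 ≤ R) (hw : 4 * l ≤ w)
    (hLA : ∀ M w : ℕ, 3 ≤ M → 1 ≤ w →
      Real.log M - (Real.log M + 1) * (Real.log (Real.log M) + C') / w ≤
        ∑ m ∈ MM M w, (1 : ℝ) / m) :
    R * (4 * l ^ 2) / 2 ≤ ∑ m ∈ MM ⌊Real.exp (R * (4 * l ^ 2))⌋₊ w, (1 : ℝ) / m := by
  set T : ℝ := R * (4 * l ^ 2) with hT
  have hT64 : 64 ≤ T := by
    rw [hT]
    nlinarith
  set N : ℕ := ⌊Real.exp T⌋₊ with hN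
  have hexp : T + 1 ≤ Real.exp T := Real.add_one_le_exp T
  have hN3 : 3 ≤ N := by
    rw [hN]
    apply Nat.le_floor
    push_cast
    linarith
  have hw1 : 1 ≤ w := by
    have : (1 : ℝ) ≤ w := by linarith
    exact_mod_cast this
  have hN0 : (0 : ℝ) < N := by
    have : 0 < N := by omega
    exact_mod_cast this
  have hlogle : Real.log N ≤ T := by
    rw [Real.log_le_iff_le_exp hN0]
    exact Nat.floor_le (Real.exp_pos T).le
  have hlogge : T - 1 ≤ Real.log N := by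
    rw [Real.le_log_iff_exp_le hN0]
    have h1 : Real.exp T - 1 < N := Nat.sub_one_lt_floor _
    have h2 : Real.exp (T - 1) = Real.exp T / Real.exp 1 := Real.exp_sub T 1
    have h3 : (2 : ℝ) ≤ Real.exp 1 := by
      have := Real.add_one_le_exp (1 : ℝ)
      linarith
    have h4 : Real.exp T / Real.exp 1 ≤ Real.exp T / 2 := by
      gcongr
    rw [h2]
    linarith
  have hlog1 : 0 < Real.log N := by linarith
  have hll : Real.log (Real.log N) ≤ l / 2 + Real.log l := by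
    have h1 : Real.log (Real.log N) ≤ Real.log (s * l) :=
      Real.log_le_log hlog1 (hlogle.trans hRs)
    rwa [Real.log_mul hs0.ne' (by linarith), hs] at h1
  have h1 := hLA N w hN3 hw1
  have h2 : (Real.log N + 1) * (Real.log (Real.log N) + C') / w ≤ (Real.log N + 1) / 4 := by
    have hw0 : (0 : ℝ) < w := by linarith
    rw [div_le_div_iff₀ hw0 (by norm_num)]
    have h3 : Real.log (Real.log N) + C' ≤ l := by linarith
    have h4 : (Real.log N + 1) * (Real.log (Real.log N) + C') ≤ (Real.log N + 1) * l := by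
      gcongr
    have h5 : (Real.log N + 1) * (4 * l) ≤ (Real.log N + 1) * w := by
      gcongr
    linarith
  linarith

theorem fa_theta (C H R : ℝ) (j : ℕ) (hH : 4 * C ≤ H) (hH1 : 1 ≤ H) (hR : 1 ≤ R)
    (hj : (j : ℝ) + 1 ≤ R)
    (hTH : ∀ u v : ℝ, 1 ≤ u → u ≤ v → Real.log (v / u) - C / u ≤ ∑ p ∈ LW u v, (1 : ℝ) / p) :
    1 / (4 * R) ≤ ∑ p ∈ LW ((R + j) * H) ((R + j + 1) * H), (1 : ℝ) / p := by
  have hj0 : (0 : ℝ) ≤ j := Nat.cast_nonneg j
  have hRj : 0 < R + j := by linarith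
  have hu : 1 ≤ (R + j) * H := by nlinarith
  have huv : (R + j) * H ≤ (R + j + 1) * H := by nlinarith
  refine le_trans ?_ (hTH _ _ hu huv)
  have h1 : (R + j + 1) * H / ((R + j) * H) = (R + j + 1) / (R + j) := by
    rw [mul_div_mul_right _ _ (by linarith)]
  rw [h1]
  have h2 : 1 / (2 * R) ≤ Real.log ((R + j + 1) / (R + j)) := by
    have h3 := Real.one_sub_inv_le_log_of_pos (x := (R + j + 1) / (R + j)) (by positivity)
    have h4 : 1 - ((R + j + 1) / (R + j))⁻¹ = 1 / (R + j + 1) := by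
      rw [inv_div]
      field_simp
      ring
    rw [h4] at h3
    refine le_trans ?_ h3
    apply one_div_le_one_div_of_le (by linarith) (by linarith)
  have h5 : C / ((R + j) * H) ≤ 1 / (4 * R) := by
    rw [div_le_div_iff₀ (by positivity) (by positivity)]
    have a1 : 4 * C * R ≤ H * R := mul_le_mul_of_nonneg_right hH (by linarith)
    have a2 : 0 ≤ (j : ℝ) * H := by positivity
    linarith
  have h6 : 1 / (2 * R) = 1 / (4 * R) + 1 / (4 * R) := by
    field_simp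
    norm_num
  linarith

theorem pf_FA (hAS : T_AS) (hPS : T_PS) (hPD : T_PD) (hCO : T_CO) (hTH : T_TH)
    (hLA : T_LA) : T_FA := by
  obtain ⟨C, hC, hTH⟩ := hTH
  obtain ⟨C', hC', hLA⟩ := hLA
  obtain ⟨x₀, hx₀⟩ := hAS (100 + 4 * C + 4 * C')
  refine ⟨x₀, fun x hx => ?_⟩
  obtain ⟨hKx, hKlog, hKl, hKs, hs0, hs2, hlogs, hxexp, hg, hKg, hgs⟩ := hx₀ x hx
  set s : ℝ := sx x with hs
  set l : ℝ := el x with hl
  set lam : ℝ := Real.log l with hlam
  set K : ℝ := 100 + 4 * C + 4 * C' with hK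
  have hK100 : 100 ≤ K := by linarith
  have hlam100 : 100 ≤ lam := hK100.trans hKlog
  obtain ⟨hlamK, hKl1, hl100, hlaml⟩ := fa_n1 hK100 hKlog hKl
  obtain ⟨hsl, hsl1⟩ := fa_n2 hK100 hl100 hKs
  have hl0 : 0 < l := by linarith
  -- the parameter `r`
  set r : ℕ := ⌊s / (20 * l)⌋₊ with hr
  set R : ℝ := (r : ℝ) with hRdef
  have hRle : R ≤ s / (20 * l) := Nat.floor_le (by positivity)
  have hRge0 : s / (20 * l) - 1 < R := Nat.sub_one_lt_floor _
  have hs40 : 1 ≤ s / (40 * l) := by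
    rw [le_div_iff₀ (by positivity)]
    linarith
  have h2040 : s / (20 * l) = s / (40 * l) + s / (40 * l) := by
    field_simp
    norm_num
  have hRge : s / (40 * l) ≤ R := by linarith
  have hR1 : 1 ≤ R := by linarith
  have hr1 : 1 ≤ r := by
    rw [hRdef] at hR1
    exact_mod_cast hR1
  have hRl : R * (20 * l) ≤ s := by
    rwa [le_div_iff₀ (by positivity)] at hRle
  set H : ℝ := 4 * l ^ 2 with hH
  obtain ⟨hH1, hKH, hlH⟩ := fa_n4 hl100 hKl1
  rw [← hH] at hH1 hKH hlH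
  have hH0 : 0 < H := by linarith
  have hHC : 4 * C ≤ H := by linarith
  have hRH : R * H ≤ s * l / 5 := fa_n3 hl0.le hRl
  set w : ℕ := ⌈4 * l⌉₊ with hw
  have hw1 : 4 * l ≤ w := Nat.le_ceil _
  have hw2 : (w : ℝ) < 4 * l + 1 := Nat.ceil_lt_add_one (by positivity)
  set L : Fin r → Finset ℕ := fun j => LW ((R + (j : ℕ)) * H) ((R + (j : ℕ) + 1) * H) with hL
  set M : Finset ℕ := MM ⌊Real.exp (R * H)⌋₊ w with hM
  have hjr : ∀ j : Fin r, ((j : ℕ) : ℝ) + 1 ≤ R := by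
    intro j
    have := j.2
    have h2 : (j : ℕ) + 1 ≤ r := by omega
    rw [hRdef]
    exact_mod_cast h2
  have hLp : ∀ j, ∀ p ∈ L j, p.Prime ∧ Real.exp (R * H) < p ∧
      (p : ℝ) ≤ Real.exp (2 * R * H) := by
    intro j p hp
    obtain ⟨h1, h2, h3⟩ := fa_LW hp
    refine ⟨h1, ?_, ?_⟩
    · refine lt_of_le_of_lt (Real.exp_le_exp.2 ?_) h2
      have : (0 : ℝ) ≤ ((j : ℕ) : ℝ) := Nat.cast_nonneg _
      exact mul_le_mul_of_nonneg_right (by linarith) hH0.le
    · exact h3.trans (Real.exp_le_exp.2 (fa_n6 (hjr j) hH0.le))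
  have hMm : ∀ m ∈ M, 1 ≤ m ∧ (m : ℝ) ≤ Real.exp (R * H) ∧
      ArithmeticFunction.cardFactors m ≤ w := by
    intro m hm
    rw [hM] at hm
    unfold MM at hm
    rw [Finset.mem_filter, Finset.mem_Icc] at hm
    exact ⟨hm.1.1, (Nat.cast_le.2 hm.1.2).trans (Nat.floor_le (Real.exp_pos _).le), hm.2⟩
  have hmp : ∀ j, ∀ p ∈ L j, ∀ m ∈ M, 1 ≤ m ∧ m < p := by
    intro j p hp m hm
    refine ⟨(hMm m hm).1, ?_⟩
    have h1 := (hMm m hm).2.1
    have h2 := (hLp j p hp).2.1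
    exact_mod_cast h1.trans_lt h2
  have hLdisj : ∀ i j, i ≠ j → Disjoint (L i) (L j) := by
    have hlt : ∀ i j : Fin r, (i : ℕ) < j → Disjoint (L i) (L j) := by
      intro i j hij
      apply fa_LW_disj
      have h1 : ((i : ℕ) : ℝ) + 1 ≤ ((j : ℕ) : ℝ) := by exact_mod_cast hij
      exact mul_le_mul_of_nonneg_right (by linarith) hH0.le
    intro i j hij
    rcases lt_trichotomy (i : ℕ) (j : ℕ) with h | h | h
    · exact hlt i j h
    · exact absurd (Fin.ext h) hij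
    · exact (hlt j i h).symm
  have hθ : ∀ j, 1 / (4 * R) ≤ ∑ p ∈ L j, (1 : ℝ) / p := fun j =>
    fa_theta C H R j hHC hH1 hR1 (hjr j) hTH
  have hMsum : R * H / 2 ≤ ∑ m ∈ M, (1 : ℝ) / m := by
    apply fa_M C' R l w (by linarith) _ s hlogs hs0 _ hR1 hw1 hLA
    · have h2 : C' ≤ l / 4 := by linarith
      linarith
    · rw [← hH]
      have := mul_pos hs0 hl0
      linarith
  -- elements of `A j`
  have hAe : ∀ j, ∀ a ∈ PA (L j) M, (a : ℝ) ≤ Real.exp (3 * R * H) := by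
    intro j a ha
    unfold PA at ha
    rw [Finset.mem_image] at ha
    obtain ⟨⟨p, m⟩, hpm, rfl⟩ := ha
    rw [Finset.mem_product] at hpm
    have h1 := (hLp j p hpm.1).2.2
    have h2 := (hMm m hpm.2).2.1
    have h3 : (3 * R * H) = 2 * R * H + R * H := by ring
    rw [h3, Real.exp_add]
    push_cast
    exact mul_le_mul h1 h2 (Nat.cast_nonneg _) (Real.exp_pos _).le
  have hPSj : ∀ j, (∀ a ∈ PA (L j) M, 2 ≤ a) ∧
      ∑ a ∈ PA (L j) M, (1 : ℝ) / a = (∑ p ∈ L j, (1 : ℝ) / p) * ∑ m ∈ M, (1 : ℝ) / m :=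
    fun j => hPS (L j) M (fun p hp => (hLp j p hp).1) (hmp j)
  have hmq : Real.exp (gx x / 40) ≤ mq (fun j => PA (L j) M) := by
    rw [fa_mq]
    have h1 : l ^ r ≤ ∏ i : Fin r, ∑ a ∈ PA (L i) M, (1 : ℝ) / a := by
      have h2 : l ^ r = ∏ _i : Fin r, l := by simp
      rw [h2]
      apply Finset.prod_le_prod (fun i _ => hl0.le)
      intro i _
      rw [(hPSj i).2]
      calc l ≤ 1 / (4 * R) * (R * H / 2) := by
            have : 1 / (4 * R) * (R * H / 2) = H / 8 := by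
              field_simp
              norm_num
            rw [this]
            exact hlH
        _ ≤ (∑ p ∈ L i, (1 : ℝ) / p) * ∑ m ∈ M, (1 : ℝ) / m :=
            mul_le_mul (hθ i) hMsum (by positivity) (le_trans (by positivity) (hθ i))
    refine le_trans ?_ h1
    have h3 : l ^ r = Real.exp (R * lam) := by
      rw [hlam, mul_comm, Real.exp_mul, Real.exp_log hl0, hRdef, Real.rpow_natCast]
    rw [h3]
    apply Real.exp_le_exp.2
    have h4 : gx x / 40 = s / (40 * l) * lam := by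
      rw [div_mul_eq_mul_div, div_eq_div_iff (by norm_num) (by positivity)]
      linear_combination 40 * hg
    rw [h4]
    exact mul_le_mul_of_nonneg_right hRge (by linarith)
  refine ⟨r, fun j => PA (L j) M, hr1, fun i a ha => (hPSj i).1 a ha, ?_, ?_, hmq, ?_⟩
  · intro i j hij
    exact hPD (L i) (L j) M (fun p hp => (hLp i p hp).1) (fun p hp => (hLp j p hp).1)
      (hmp i) (hmp j) (hLdisj i j hij)
  · intro a ha
    have ha' : ∀ j, (a j : ℝ) ≤ Real.exp (3 * R * H) := fun j =>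
      hAe j _ (Fintype.mem_piFinset.1 ha j)
    have hxp : ∀ c : ℝ, x ^ c = Real.exp (c * s ^ 2) := by
      intro c
      rw [hxexp, ← Real.exp_mul, mul_comm]
    have hR2H : R * (R * H) ≤ s ^ 2 / 100 :=
      fa_n10 (by linarith) hl0.le hRl
    constructor
    · unfold Qf
      push_cast
      have h1 : ∏ i, (a i : ℝ) ≤ ∏ _i : Fin r, Real.exp (3 * R * H) :=
        Finset.prod_le_prod (fun i _ => Nat.cast_nonneg _) fun i _ => ha' i
      refine h1.trans ?_
      rw [Finset.prod_const, Finset.card_univ, Fintype.card_fin, ← Real.exp_nat_mul, hxp]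
      apply Real.exp_le_exp.2
      have h2 : (r : ℝ) * (3 * R * H) = 3 * (R * (R * H)) := by
        rw [← hRdef]
        ring
      rw [h2]
      have : 0 ≤ s ^ 2 := by positivity
      linarith
    · unfold Sg
      push_cast
      have h1 : ∑ i, (a i : ℝ) ≤ ∑ _i : Fin r, Real.exp (3 * R * H) :=
        Finset.sum_le_sum fun i _ => ha' i
      refine h1.trans ?_
      rw [Finset.sum_const, Finset.card_univ, Fintype.card_fin, nsmul_eq_mul, hxp]
      have h2 : (r : ℝ) ≤ Real.exp R := by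
        have := Real.add_one_le_exp R
        linarith
      calc (r : ℝ) * Real.exp (3 * R * H) ≤ Real.exp R * Real.exp (3 * R * H) := by gcongr
        _ = Real.exp (R + 3 * R * H) := (Real.exp_add _ _).symm
        _ ≤ Real.exp (1 / 100 * s ^ 2) := by
          exact Real.exp_le_exp.2 (fa_n11 (by linarith) hs0.le hl100 hRl hsl1)
  · have h1 := hCO r w L M (Real.exp (R * H)) (1 / (4 * R)) hr1 (Real.exp_pos _) (by positivity)
      (fun j p hp => ⟨(hLp j p hp).1, (hLp j p hp).2.1.le⟩) hmp (fun m hm => (hMm m hm).2.2)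
      hLdisj hθ
    refine h1.trans ?_
    have hmq0 : 0 ≤ mq (fun j => PA (L j) M) := le_trans (Real.exp_pos _).le hmq
    have h2 : ((r : ℝ) ^ 2 * (r : ℝ) ^ (r * (w + 1)) /
        (Real.exp (R * H) * (1 / (4 * R)))) ≤ 1 := by
      rw [div_le_one (by positivity)]
      rw [mul_one_div, le_div_iff₀ (by positivity), ← hRdef]
      have hR0 : 0 < R := by linarith
      have hlogR : Real.log R ≤ l / 2 := by
        rw [← hlogs]
        apply Real.log_le_log hR0
        have h1 : R * 1 ≤ R * (20 * l) := mul_le_mul_of_nonneg_left (by linarith) hR0.le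
        linarith
      have hRexp : R ≤ Real.exp (l / 2) := by
        rw [← Real.exp_log hR0]
        exact Real.exp_le_exp.2 hlogR
      have h4 : (4 : ℝ) ≤ Real.exp 2 := fa_exp2
      calc R ^ 2 * R ^ (r * (w + 1)) * (4 * R)
          = 4 * (R ^ 3 * R ^ (r * (w + 1))) := by ring
        _ ≤ Real.exp 2 * (Real.exp (l / 2) ^ 3 * Real.exp (l / 2) ^ (r * (w + 1))) := by
            gcongr
        _ = Real.exp (2 + (3 * (l / 2) + ((r * (w + 1) : ℕ) : ℝ) * (l / 2))) := by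
            rw [Real.exp_add, Real.exp_add, ← Real.exp_nat_mul, ← Real.exp_nat_mul]
            norm_num
        _ ≤ Real.exp (R * H) := by
            apply Real.exp_le_exp.2
            push_cast
            rw [← hRdef, hH]
            exact fa_n14 hR1 hl100 hw2
    calc ((r : ℝ) ^ 2 * (r : ℝ) ^ (r * (w + 1)) /
        (Real.exp (R * H) * (1 / (4 * R)))) * mq (fun j => PA (L j) M)
        ≤ 1 * mq (fun j => PA (L j) M) := mul_le_mul_of_nonneg_right h2 hmq0
      _ = mq (fun j => PA (L j) M) := one_mul _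

end Pool.Agent.H99.NOK
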