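import Pool.Agent.H26.NO.Targets
import Pool.Agent.H50.NK.CN

/-!
# Row NI of nok_modules: solutions from congruences
-/

set_option autoImplicit false

open Finset

namespace Pool.Agent.H99.NOK

open Pool.Agent.H26.NO
open Pool.Agent.H73.NK (SPM)

/-- the solution attached to `(a, b)` -/
def niPhi {r : ℕ} (k : ℕ) (y : (Fin r → ℕ) × ℕ) : Multiset ℕ :=
  Multiset.replicate (k - (r + 2)) 1 +
    (((k + eb y) / qb y) ::ₘ (y.2 ::ₘ (Finset.univ : Finset (Fin r)).val.map y.1))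

theorem mem_niPhi {r : ℕ} {k : ℕ} {y : (Fin r → ℕ) × ℕ} {c : ℕ} (h : c ∈ niPhi k y) :
    c = 1 ∨ c = (k + eb y) / qb y ∨ c = y.2 ∨ ∃ i, y.1 i = c := by
  unfold niPhi at h
  rw [Multiset.mem_add, Multiset.mem_cons, Multiset.mem_cons, Multiset.mem_map] at h
  rcases h with h | h | h | ⟨i, _, h⟩
  · exact Or.inl (Multiset.eq_of_mem_replicate h)
  · exact Or.inr (Or.inl h)
  · exact Or.inr (Or.inr (Or.inl h))
  · exact Or.inr (Or.inr (Or.inr ⟨i, h⟩))

theorem b_mem_niPhi {r : ℕ} (k : ℕ) (y : (Fin r → ℕ) × ℕ) : y.2 ∈ niPhi k y := by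
  unfold niPhi
  simp

theorem a_mem_niPhi {r : ℕ} (k : ℕ) (y : (Fin r → ℕ) × ℕ) (i : Fin r) :
    y.1 i ∈ niPhi k y := by
  unfold niPhi
  simp

theorem ni_Qf_pos {r : ℕ} (A : Fin r → Finset ℕ) (hA : ∀ i, ∀ a ∈ A i, 2 ≤ a)
    {a : Fin r → ℕ} (ha : a ∈ Fintype.piFinset A) : 1 ≤ Qf a := by
  unfold Qf
  refine Nat.one_le_iff_ne_zero.2 (Finset.prod_ne_zero_iff.2 fun i _ => ?_)
  have := hA i (a i) (Fintype.mem_piFinset.1 ha i)
  omega

theorem ni_Sg_ge {r : ℕ} (A : Fin r → Finset ℕ) (hA : ∀ i, ∀ a ∈ A i, 2 ≤ a)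
    {a : Fin r → ℕ} (ha : a ∈ Fintype.piFinset A) : 2 * r ≤ Sg a := by
  unfold Sg
  calc 2 * r = ∑ _i : Fin r, 2 := by simp [mul_comm]
    _ ≤ ∑ i, a i := Finset.sum_le_sum fun i _ => hA i (a i) (Fintype.mem_piFinset.1 ha i)

theorem pf_NI : T_NI := by
  intro r A Y k z hr hY hA hdisj hrk hQk
  classical
  have hA2 : ∀ i, ∀ a ∈ A i, 2 ≤ a := fun i a ha => (hA i a ha).1
  have hfin := Pool.Agent.H50.NK.spm_finite (k := k) (by omega)
  unfold Rk
  set F := (IX A Y z).filter (fun i => qb i ∣ k + eb i) with hF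
  -- facts on the elements
  have hfacts : ∀ y ∈ F, (∀ i, y.1 i ∈ A i) ∧ Y < y.2 ∧ y.2 ≤ 2 * Y ∧
      qb y ∣ k + eb y ∧ 1 ≤ Qf y.1 ∧ 2 * r ≤ Sg y.1 ∧ (2 * Y) ^ 2 * Qf y.1 < k := by
    intro y hy
    rw [hF, Finset.mem_filter] at hy
    have h1 := hy.1
    unfold IX at h1
    rw [Finset.mem_filter, Finset.mem_product, Finset.mem_Ioc] at h1
    exact ⟨Fintype.mem_piFinset.1 h1.1.1, h1.1.2.1, h1.1.2.2, hy.2, ni_Qf_pos A hA2 h1.1.1,
      ni_Sg_ge A hA2 h1.1.1, hQk _ h1.1.1⟩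
  have hq : ∀ y ∈ F, 1 ≤ qb y ∧ qb y + 1 = y.2 * Qf y.1 := by
    intro y hy
    obtain ⟨h1, h2, h3, h4, h5, h6, h7⟩ := hfacts y hy
    have h8 : 2 ≤ y.2 * Qf y.1 := by nlinarith
    unfold qb
    omega
  have ht : ∀ y ∈ F, 2 * Y < (k + eb y) / qb y := by
    intro y hy
    obtain ⟨h1, h2, h3, h4, h5, h6, h7⟩ := hfacts y hy
    obtain ⟨g1, g2⟩ := hq y hy
    obtain ⟨t, ht⟩ := h4
    rw [ht, Nat.mul_div_cancel_left _ (by omega)]
    by_contra hcon
    have h8 : t ≤ 2 * Y := by omega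
    have h9 : qb y * t ≤ (2 * Y * Qf y.1) * (2 * Y) := by
      apply Nat.mul_le_mul _ h8
      have : y.2 * Qf y.1 ≤ 2 * Y * Qf y.1 := Nat.mul_le_mul_right _ h3
      omega
    have h10 : (2 * Y * Qf y.1) * (2 * Y) = (2 * Y) ^ 2 * Qf y.1 := by ring
    omega
  -- membership
  have hmem : ∀ y ∈ F, niPhi k y ∈ SPM k := by
    intro y hy
    obtain ⟨h1, h2, h3, h4, h5, h6, h7⟩ := hfacts y hy
    obtain ⟨g1, g2⟩ := hq y hy
    have g3 := ht y hy
    refine ⟨?_, ?_, ?_⟩
    · unfold niPhi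
      simp only [Multiset.card_add, Multiset.card_replicate, Multiset.card_cons,
        Multiset.card_map, Finset.card_val, Finset.card_univ, Fintype.card_fin]
      omega
    · intro c hc
      rcases mem_niPhi hc with h | h | h | ⟨i, h⟩
      · omega
      · omega
      · omega
      · have := hA2 i _ (h1 i)
        omega
    · unfold niPhi
      obtain ⟨t, ht'⟩ := h4
      rw [ht', Nat.mul_div_cancel_left _ (by omega)]
      rw [Multiset.prod_add, Multiset.sum_add, Multiset.prod_replicate,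
        Multiset.sum_replicate, Multiset.prod_cons, Multiset.prod_cons, Multiset.sum_cons,
        Multiset.sum_cons]
      have e1 : ((Finset.univ : Finset (Fin r)).val.map y.1).prod = Qf y.1 := rfl
      have e2 : ((Finset.univ : Finset (Fin r)).val.map y.1).sum = Sg y.1 := rfl
      rw [e1, e2, one_pow, one_mul, ← g2]
      have e3 : eb y = y.2 + Sg y.1 - (r + 2) := rfl
      have e4 : t * (qb y + 1) = qb y * t + t := by ring
      rw [e4, ← ht', e3, smul_eq_mul, mul_one]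
      omega
  -- injectivity
  have hinj : Set.InjOn (niPhi k) (F : Set ((Fin r → ℕ) × ℕ)) := by
    intro y hy y' hy' heq
    have hy := Finset.mem_coe.1 hy
    have hy' := Finset.mem_coe.1 hy'
    obtain ⟨h1, h2, h3, h4, h5, h6, h7⟩ := hfacts y hy
    obtain ⟨h1', h2', h3', h4', h5', h6', h7'⟩ := hfacts y' hy'
    have g3 := ht y hy
    have g3' := ht y' hy'
    have hb : y.2 = y'.2 := by
      have hm : y.2 ∈ niPhi k y' := heq ▸ b_mem_niPhi k y
      rcases mem_niPhi hm with h | h | h | ⟨i, h⟩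
      · omega
      · omega
      · exact h
      · have := (hA i _ (h1' i)).2
        omega
    have ha : y.1 = y'.1 := by
      funext i
      have hm : y.1 i ∈ niPhi k y' := heq ▸ a_mem_niPhi k y i
      have hi := hA i _ (h1 i)
      rcases mem_niPhi hm with h | h | h | ⟨j, h⟩
      · omega
      · omega
      · omega
      · by_cases hij : i = j
        · rw [hij]
          rw [hij] at h
          exact h.symm
        · exfalso
          have hd := Finset.disjoint_left.1 (hdisj i j hij) (h1 i)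
          apply hd
          rw [← h]
          exact h1' j
    exact Prod.ext ha hb
  have h1 : (F.image (niPhi k)).card = F.card := Finset.card_image_of_injOn hinj
  rw [← h1, ← Set.ncard_coe_finset]
  apply Set.ncard_le_ncard _ hfin
  intro m hm
  rw [Finset.mem_coe, Finset.mem_image] at hm
  obtain ⟨y, hy, rfl⟩ := hm
  exact hmem y hy

end Pool.Agent.H99.NOK
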