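import Pool.Agent.H26.NO.Targets

/-!
# Row SM of nok_modules: the second moment
-/

set_option autoImplicit false

open Finset

namespace Pool.Agent.H99.NOK

open Pool.Agent.H26.NO

/-- The number of elements of a residue class in an interval. -/
theorem sm_cnt (u v q w : ℕ) (huv : u ≤ v) (hq : 1 ≤ q) :
    ((v : ℝ) - u) / q - 1 ≤ (((Ioc u v).filter (fun k => k ≡ w [MOD q])).card : ℝ) ∧
    (((Ioc u v).filter (fun k => k ≡ w [MOD q])).card : ℝ) ≤ ((v : ℝ) - u) / q + 1 := by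
  have hr : 0 < q := hq
  have h1 := Nat.Ioc_filter_modEq_card u v hr w
  have hq0 : (0 : ℚ) < q := by exact_mod_cast hr
  set X : ℚ := ((v : ℚ) - w) / q with hX
  set Y : ℚ := ((u : ℚ) - w) / q with hY
  have hXY : X - Y = ((v : ℚ) - u) / q := by
    rw [hX, hY, ← sub_div]
    ring
  have hle : Y ≤ X := by
    rw [hX, hY]
    have : (u : ℚ) ≤ v := by exact_mod_cast huv
    gcongr
  have hfl : ⌊Y⌋ ≤ ⌊X⌋ := Int.floor_le_floor hle
  rw [max_eq_left (by omega)] at h1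
  have a1 : (⌊X⌋ : ℚ) ≤ X := Int.floor_le X
  have a2 : X < ⌊X⌋ + 1 := Int.lt_floor_add_one X
  have a3 : (⌊Y⌋ : ℚ) ≤ Y := Int.floor_le Y
  have a4 : Y < ⌊Y⌋ + 1 := Int.lt_floor_add_one Y
  have h2 : ((((Ioc u v).filter (fun k => k ≡ w [MOD q])).card : ℕ) : ℚ) =
      (⌊X⌋ : ℚ) - ⌊Y⌋ := by
    have h3 := congrArg (fun z : ℤ => (z : ℚ)) h1
    simpa using h3
  have b1 : ((v : ℚ) - u) / q - 1 ≤
      ((((Ioc u v).filter (fun k => k ≡ w [MOD q])).card : ℕ) : ℚ) := by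
    rw [h2, ← hXY]
    linarith
  have b2 : ((((Ioc u v).filter (fun k => k ≡ w [MOD q])).card : ℕ) : ℚ) ≤
      ((v : ℚ) - u) / q + 1 := by
    rw [h2, ← hXY]
    linarith
  constructor
  · have := (Rat.cast_le (K := ℝ)).2 b1
    push_cast at this
    exact this
  · have := (Rat.cast_le (K := ℝ)).2 b2
    push_cast at this
    exact this

/-- One congruence. -/
theorem sm_one (u v q e : ℕ) (huv : u ≤ v) (hq : 1 ≤ q) :
    ((v : ℝ) - u) * (1 / q) - 1 ≤ (((Ioc u v).filter (fun k => q ∣ k + e)).card : ℝ) := by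
  have h1 := (sm_cnt u v q ((q - 1) * e) huv hq).1
  have h2 : (Ioc u v).filter (fun k => q ∣ k + e) =
      (Ioc u v).filter (fun k => k ≡ (q - 1) * e [MOD q]) := by
    apply Finset.filter_congr
    intro k _
    have h3 : (q - 1) * e + e ≡ 0 [MOD q] := by
      have : (q - 1) * e + e = q * e := by
        obtain ⟨q', rfl⟩ : ∃ q', q = q' + 1 := ⟨q - 1, by omega⟩
        simp only [Nat.add_sub_cancel]
        ring
      rw [this]
      exact (Nat.modEq_zero_iff_dvd).2 (Dvd.intro _ rfl)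
    constructor
    · intro h
      have h4 : k + e ≡ 0 [MOD q] := (Nat.modEq_zero_iff_dvd).2 h
      exact Nat.ModEq.add_right_cancel' e (h4.trans h3.symm)
    · intro h
      exact (Nat.modEq_zero_iff_dvd).1 ((h.add_right e).trans h3)
  rw [h2, mul_one_div]
  exact h1

/-- Two congruences. -/
theorem sm_two (u v q q' e e' : ℕ) (huv : u ≤ v) (hq : 1 ≤ q) (hq' : 1 ≤ q') :
    (((Ioc u v).filter (fun k => q ∣ k + e ∧ q' ∣ k + e')).card : ℝ) ≤
      ((v : ℝ) - u) * ((1 / q) * (1 / q')) +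
      ((v : ℝ) - u) * (if 1 < q.gcd q' ∧ (((q.gcd q' : ℕ)) : ℤ) ∣ (e : ℤ) - (e' : ℤ) then
        ((q.gcd q' : ℕ) : ℝ) / ((q : ℝ) * (q' : ℝ)) else 0) + 1 := by
  have huv' : (0 : ℝ) ≤ (v : ℝ) - u := by
    have : (u : ℝ) ≤ v := by exact_mod_cast huv
    linarith
  have hq0 : (0 : ℝ) < q := by exact_mod_cast hq
  have hq0' : (0 : ℝ) < q' := by exact_mod_cast hq'
  have hif : (0 : ℝ) ≤ (if 1 < q.gcd q' ∧ (((q.gcd q' : ℕ)) : ℤ) ∣ (e : ℤ) - (e' : ℤ) then
        ((q.gcd q' : ℕ) : ℝ) / ((q : ℝ) * (q' : ℝ)) else 0) := by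
    split_ifs
    · positivity
    · exact le_rfl
  rcases Finset.eq_empty_or_nonempty
    ((Ioc u v).filter (fun k => q ∣ k + e ∧ q' ∣ k + e')) with hS | ⟨k₀, hk₀⟩
  · rw [hS, Finset.card_empty, Nat.cast_zero]
    positivity
  · rw [Finset.mem_filter] at hk₀
    obtain ⟨_, hk1, hk2⟩ := hk₀
    set L := q.lcm q' with hL
    have hLpos : 1 ≤ L := Nat.lcm_pos hq hq'
    have hsub : (Ioc u v).filter (fun k => q ∣ k + e ∧ q' ∣ k + e') ⊆
        (Ioc u v).filter (fun k => k ≡ k₀ [MOD L]) := by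
      intro k hk
      rw [Finset.mem_filter] at hk ⊢
      refine ⟨hk.1, ?_⟩
      have c1 : k ≡ k₀ [MOD q] := by
        have g1 : k + e ≡ 0 [MOD q] := (Nat.modEq_zero_iff_dvd).2 hk.2.1
        have g2 : k₀ + e ≡ 0 [MOD q] := (Nat.modEq_zero_iff_dvd).2 hk1
        exact Nat.ModEq.add_right_cancel' e (g1.trans g2.symm)
      have c2 : k ≡ k₀ [MOD q'] := by
        have g1 : k + e' ≡ 0 [MOD q'] := (Nat.modEq_zero_iff_dvd).2 hk.2.2
        have g2 : k₀ + e' ≡ 0 [MOD q'] := (Nat.modEq_zero_iff_dvd).2 hk2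
        exact Nat.ModEq.add_right_cancel' e' (g1.trans g2.symm)
      have d1 : (q : ℤ) ∣ (k₀ : ℤ) - k := (Nat.modEq_iff_dvd).1 c1
      have d2 : (q' : ℤ) ∣ (k₀ : ℤ) - k := (Nat.modEq_iff_dvd).1 c2
      apply (Nat.modEq_iff_dvd).2
      have d3 : ((q.lcm q' : ℕ) : ℤ) ∣ (k₀ : ℤ) - k := by
        rw [← Int.natAbs_dvd_natAbs] at d1 d2 ⊢
        simp only [Int.natAbs_natCast] at d1 d2 ⊢
        exact Nat.lcm_dvd d1 d2
      exact d3
    have hcard : (((Ioc u v).filter (fun k => q ∣ k + e ∧ q' ∣ k + e')).card : ℝ) ≤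
        ((v : ℝ) - u) / L + 1 := by
      refine le_trans ?_ (sm_cnt u v L k₀ huv hLpos).2
      exact_mod_cast Finset.card_le_card hsub
    have hGL : ((q.gcd q' : ℕ) : ℝ) * (L : ℝ) = (q : ℝ) * q' := by
      have := Nat.gcd_mul_lcm q q'
      exact_mod_cast this
    have hL0 : (0 : ℝ) < L := by exact_mod_cast hLpos
    have hdivL : ((v : ℝ) - u) / L =
        ((v : ℝ) - u) * (((q.gcd q' : ℕ) : ℝ) / ((q : ℝ) * (q' : ℝ))) := by
      have hg0 : (0 : ℝ) < ((q.gcd q' : ℕ) : ℝ) := by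
        exact_mod_cast Nat.gcd_pos_of_pos_left q' hq
      rw [← hGL]
      field_simp
    have hGdvd : (((q.gcd q' : ℕ)) : ℤ) ∣ (e : ℤ) - (e' : ℤ) := by
      have g1 : ((q.gcd q' : ℕ) : ℤ) ∣ (k₀ : ℤ) + e := by
        have := (Nat.gcd_dvd_left q q').trans hk1
        exact_mod_cast this
      have g2 : ((q.gcd q' : ℕ) : ℤ) ∣ (k₀ : ℤ) + e' := by
        have := (Nat.gcd_dvd_right q q').trans hk2
        exact_mod_cast this
      have g3 := dvd_sub g1 g2
      have g4 : ((k₀ : ℤ) + e) - ((k₀ : ℤ) + e') = (e : ℤ) - e' := by ring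
      rwa [g4] at g3
    refine hcard.trans ?_
    rw [hdivL]
    by_cases hG : 1 < q.gcd q'
    · rw [if_pos ⟨hG, hGdvd⟩]
      have : 0 ≤ ((v : ℝ) - u) * ((1 / q) * (1 / q')) := by positivity
      linarith
    · have hG1 : q.gcd q' = 1 := by
        have := Nat.gcd_pos_of_pos_left q' hq
        omega
      have : ((v : ℝ) - u) * (((q.gcd q' : ℕ) : ℝ) / ((q : ℝ) * (q' : ℝ))) =
          ((v : ℝ) - u) * ((1 / q) * (1 / q')) := by
        rw [hG1, Nat.cast_one]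
        field_simp
      rw [this]
      have := mul_nonneg huv' hif
      linarith

theorem pf_SM : T_SM := by
  intro ι I q e u v huv hq
  classical
  set μ : ℝ := ∑ i ∈ I, (1 : ℝ) / q i with hμ
  have hμ0 : 0 ≤ μ := Finset.sum_nonneg fun i _ => by positivity
  have hR : ∀ k, (Rk I q e k : ℝ) = ∑ i ∈ I, (if q i ∣ k + e i then (1 : ℝ) else 0) := by
    intro k
    unfold Rk
    rw [Finset.card_filter]
    push_cast
    rfl
  -- first moment
  have hM1 : ((v : ℝ) - u) * μ - I.card ≤ ∑ k ∈ Ioc u v, (Rk I q e k : ℝ) := by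
    calc ((v : ℝ) - u) * μ - I.card
        = ∑ i ∈ I, (((v : ℝ) - u) * (1 / q i) - 1) := by
          rw [Finset.sum_sub_distrib, ← Finset.mul_sum, Finset.sum_const, nsmul_eq_mul,
            mul_one]
      _ ≤ ∑ i ∈ I, (((Ioc u v).filter (fun k => q i ∣ k + e i)).card : ℝ) :=
          Finset.sum_le_sum fun i hi => sm_one u v (q i) (e i) huv (hq i hi)
      _ = ∑ i ∈ I, ∑ k ∈ Ioc u v, (if q i ∣ k + e i then (1 : ℝ) else 0) := by
          refine Finset.sum_congr rfl fun i _ => ?_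
          rw [Finset.card_filter]
          push_cast
          rfl
      _ = ∑ k ∈ Ioc u v, ∑ i ∈ I, (if q i ∣ k + e i then (1 : ℝ) else 0) :=
          Finset.sum_comm
      _ = ∑ k ∈ Ioc u v, (Rk I q e k : ℝ) :=
          Finset.sum_congr rfl fun k _ => (hR k).symm
  -- second moment
  have hM2 : ∑ k ∈ Ioc u v, (Rk I q e k : ℝ) ^ 2 ≤
      ((v : ℝ) - u) * μ ^ 2 + ((v : ℝ) - u) * Dl I q e + (I.card : ℝ) ^ 2 := by
    have h1 : ∑ k ∈ Ioc u v, (Rk I q e k : ℝ) ^ 2 = ∑ i ∈ I, ∑ j ∈ I,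
        (((Ioc u v).filter (fun k => q i ∣ k + e i ∧ q j ∣ k + e j)).card : ℝ) := by
      calc ∑ k ∈ Ioc u v, (Rk I q e k : ℝ) ^ 2
          = ∑ k ∈ Ioc u v, ∑ i ∈ I, ∑ j ∈ I,
            (if q i ∣ k + e i ∧ q j ∣ k + e j then (1 : ℝ) else 0) := by
            refine Finset.sum_congr rfl fun k _ => ?_
            rw [hR k, sq, Finset.sum_mul_sum]
            refine Finset.sum_congr rfl fun i _ => Finset.sum_congr rfl fun j _ => ?_
            by_cases h1 : q i ∣ k + e i <;> by_cases h2 : q j ∣ k + e j <;> simp [h1, h2]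
        _ = ∑ i ∈ I, ∑ k ∈ Ioc u v, ∑ j ∈ I,
            (if q i ∣ k + e i ∧ q j ∣ k + e j then (1 : ℝ) else 0) := Finset.sum_comm
        _ = ∑ i ∈ I, ∑ j ∈ I, ∑ k ∈ Ioc u v,
            (if q i ∣ k + e i ∧ q j ∣ k + e j then (1 : ℝ) else 0) :=
            Finset.sum_congr rfl fun i _ => Finset.sum_comm
        _ = _ := by
            refine Finset.sum_congr rfl fun i _ => Finset.sum_congr rfl fun j _ => ?_
            rw [Finset.card_filter]
            push_cast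
            rfl
    rw [h1]
    have h2 : ∀ i ∈ I, ∀ j ∈ I,
        (((Ioc u v).filter (fun k => q i ∣ k + e i ∧ q j ∣ k + e j)).card : ℝ) ≤
        ((v : ℝ) - u) * ((1 / q i) * (1 / q j)) +
        ((v : ℝ) - u) * (if 1 < (q i).gcd (q j) ∧
          ((((q i).gcd (q j) : ℕ)) : ℤ) ∣ (e i : ℤ) - (e j : ℤ) then
        (((q i).gcd (q j) : ℕ) : ℝ) / ((q i : ℝ) * (q j : ℝ)) else 0) + 1 :=
      fun i hi j hj => sm_two u v (q i) (q j) (e i) (e j) huv (hq i hi) (hq j hj)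
    refine (Finset.sum_le_sum fun i hi => Finset.sum_le_sum fun j hj => h2 i hi j hj).trans ?_
    apply le_of_eq
    have h3 : ∑ i ∈ I, ∑ j ∈ I, (((v : ℝ) - u) * ((1 / q i) * (1 / q j))) =
        ((v : ℝ) - u) * μ ^ 2 := by
      rw [sq, hμ, Finset.sum_mul_sum, Finset.mul_sum]
      refine Finset.sum_congr rfl fun i _ => ?_
      rw [Finset.mul_sum]
    have h4 : ∑ i ∈ I, ∑ j ∈ I, (((v : ℝ) - u) * (if 1 < (q i).gcd (q j) ∧
          ((((q i).gcd (q j) : ℕ)) : ℤ) ∣ (e i : ℤ) - (e j : ℤ) then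
        (((q i).gcd (q j) : ℕ) : ℝ) / ((q i : ℝ) * (q j : ℝ)) else 0)) =
        ((v : ℝ) - u) * Dl I q e := by
      unfold Dl
      rw [Finset.mul_sum]
      refine Finset.sum_congr rfl fun i _ => ?_
      rw [Finset.sum_filter, Finset.mul_sum]
    have h5 : ∑ i ∈ I, ∑ j ∈ I, (1 : ℝ) = (I.card : ℝ) ^ 2 := by
      simp [sq]
    rw [← h3, ← h4, ← h5, ← Finset.sum_add_distrib, ← Finset.sum_add_distrib]
    refine Finset.sum_congr rfl fun i _ => ?_
    rw [← Finset.sum_add_distrib, ← Finset.sum_add_distrib]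
  -- conclusion
  have hE : ∑ k ∈ Ioc u v, ((Rk I q e k : ℝ) - μ) ^ 2 =
      ∑ k ∈ Ioc u v, (Rk I q e k : ℝ) ^ 2 - 2 * μ * ∑ k ∈ Ioc u v, (Rk I q e k : ℝ) +
        ((v : ℝ) - u) * μ ^ 2 := by
    have hc : ∑ k ∈ Ioc u v, μ ^ 2 = ((v : ℝ) - u) * μ ^ 2 := by
      rw [Finset.sum_const, Nat.card_Ioc, nsmul_eq_mul, Nat.cast_sub huv]
    rw [← hc, Finset.mul_sum, ← Finset.sum_sub_distrib, ← Finset.sum_add_distrib]
    refine Finset.sum_congr rfl fun k _ => ?_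
    ring
  rw [hE]
  have h6 := mul_le_mul_of_nonneg_left hM1 (by positivity : (0 : ℝ) ≤ 2 * μ)
  nlinarith [hM2, h6]

end Pool.Agent.H99.NOK
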