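import Pool.Agent.H26.NO.Targets
import Pool.Agent.H99.NOK.SM

/-!
# Row SV of nok_modules: cofactors without small prime factors
-/

set_option autoImplicit false

open Finset
open scoped Nat

namespace Pool.Agent.H99.NOK

open Pool.Agent.H26.NO
open Pool.Agent.H30.BV (T_BL As Sf Sad Er qj)

/-- the sieving primes -/
noncomputable def svP (z : ℝ) (Q : ℕ) : Finset ℕ :=
  (Icc 1 ⌊z⌋₊).filter (fun p => p.Prime ∧ ¬ p ∣ Q)

theorem mem_svP {z : ℝ} {Q p : ℕ} (hp : p ∈ svP z Q) : p.Prime ∧ ¬ p ∣ Q ∧ p ≤ ⌊z⌋₊ := by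
  unfold svP at hp
  rw [Finset.mem_filter, Finset.mem_Icc] at hp
  exact ⟨hp.2.1, hp.2.2, hp.1.2⟩

/-- The sifted set. -/
theorem sv_Sf (Y Q : ℕ) (z : ℝ) (hz : 0 ≤ z) (hQ : 1 ≤ Q) :
    Sf (Ioc Y (2 * Y)) (fun _ => 1) (fun p b => p ∣ b * Q - 1) (svP z Q) =
      ((Bs Y z Q).card : ℝ) := by
  unfold Sf Bs
  rw [Finset.sum_const, nsmul_eq_mul, mul_one]
  congr 2
  ext b
  simp only [Finset.mem_filter]
  refine and_congr_right fun hb => ?_
  rw [Finset.mem_Ioc] at hb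
  constructor
  · intro h p hp hpz hdvd
    by_cases hpQ : p ∣ Q
    · have h1 : p ∣ b * Q := hpQ.mul_left b
      have h2 : 1 ≤ b * Q := Nat.mul_pos (by omega) hQ
      have h3 : p ∣ b * Q - (b * Q - 1) := Nat.dvd_sub h1 hdvd
      have h4 : b * Q - (b * Q - 1) = 1 := by omega
      rw [h4] at h3
      exact hp.one_lt.ne' (Nat.dvd_one.1 h3)
    · apply h p _ hdvd
      unfold svP
      rw [Finset.mem_filter, Finset.mem_Icc]
      exact ⟨⟨hp.one_lt.le, Nat.le_floor hpz⟩, hp, hpQ⟩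
  · intro h p hp
    obtain ⟨h1, h2, h3⟩ := mem_svP hp
    exact h p h1 ((Nat.cast_le.2 h3).trans (Nat.floor_le hz))

/-- One term of the error. -/
theorem sv_term (Y Q : ℕ) (z : ℝ) (hQ : 1 ≤ Q) (s : Finset ℕ)
    (hs : s ⊆ svP z Q) :
    |As (Ioc Y (2 * Y)) (fun _ => 1) (fun p b => p ∣ b * Q - 1) s -
      (Y : ℝ) * ∏ p ∈ s, (1 : ℝ) / p| ≤ 1 := by
  set d : ℕ := ∏ p ∈ s, p with hd
  have hpr : ∀ p ∈ s, p.Prime := fun p hp => (mem_svP (hs hp)).1
  have hd1 : 1 ≤ d := by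
    rw [hd]
    exact Nat.one_le_iff_ne_zero.2 (Finset.prod_ne_zero_iff.2 fun p hp => (hpr p hp).ne_zero)
  have hcop : Nat.Coprime d Q := by
    rw [hd]
    apply Nat.Coprime.prod_left
    intro p hp
    exact (Nat.Prime.coprime_iff_not_dvd (hpr p hp)).2 (mem_svP (hs hp)).2.1
  obtain ⟨w, hw⟩ : ∃ w, Q * w ≡ 1 [MOD d] := by
    by_cases h1 : d = 1
    · exact ⟨0, by rw [h1]; exact Nat.modEq_one⟩
    · obtain ⟨m, _, hm⟩ := Nat.exists_mul_mod_eq_one_of_coprime hcop.symm (by omega)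
      refine ⟨m, ?_⟩
      show Q * m % d = 1 % d
      rw [hm, Nat.mod_eq_of_lt (by omega)]
  have hprod : ∏ p ∈ s, (1 : ℝ) / p = 1 / (d : ℝ) := by
    rw [Finset.prod_div_distrib, Finset.prod_const_one, hd]
    push_cast
    rfl
  have hAs : As (Ioc Y (2 * Y)) (fun _ => 1) (fun p b => p ∣ b * Q - 1) s =
      (((Ioc Y (2 * Y)).filter (fun b => b ≡ w [MOD d])).card : ℝ) := by
    unfold As
    rw [Finset.sum_const, nsmul_eq_mul, mul_one]
    congr 2
    ext b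
    simp only [Finset.mem_filter]
    refine and_congr_right fun hb => ?_
    rw [Finset.mem_Ioc] at hb
    have hbQ : 1 ≤ b * Q := Nat.mul_pos (by omega) hQ
    have h1 : (∀ p ∈ s, p ∣ b * Q - 1) ↔ d ∣ b * Q - 1 := by
      constructor
      · intro h
        rw [hd]
        exact Finset.prod_primes_dvd _ (fun p hp => (hpr p hp).prime) h
      · intro h p hp
        exact (Finset.dvd_prod_of_mem (fun p => p) hp).trans h
    rw [h1, ← Nat.modEq_iff_dvd' hbQ]
    constructor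
    · intro h
      have h2 : b * (Q * w) ≡ b * 1 [MOD d] := hw.mul_left b
      have h3 : 1 * w ≡ b * Q * w [MOD d] := h.mul_right w
      rw [mul_one] at h2
      rw [one_mul, mul_assoc] at h3
      exact (h3.trans h2).symm
    · intro h
      have h2 : b * Q ≡ w * Q [MOD d] := h.mul_right Q
      rw [mul_comm w Q] at h2
      exact (h2.trans hw).symm
  rw [hAs, hprod]
  have h1 := sm_cnt Y (2 * Y) d w (by omega) hd1
  have h2 : (((2 * Y : ℕ) : ℝ) - Y) / d = (Y : ℝ) * (1 / d) := by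
    push_cast
    rw [mul_one_div]
    congr 1
    ring
  rw [h2] at h1
  rw [abs_le]
  constructor <;> linarith [h1.1, h1.2]

/-- The number of small subsets. -/
theorem sv_count (P : Finset ℕ) (b : ℕ → ℕ) :
    ((Sad P (fun _ => 0) b 1).card : ℝ) ≤
      Real.exp 1 * ((P.card : ℝ) + 1) ^ (2 * b 0 + 1) := by
  set K : ℝ := (P.card : ℝ) + 1 with hK
  have hK1 : 1 ≤ K := by
    rw [hK]
    have : (0 : ℝ) ≤ P.card := Nat.cast_nonneg _
    linarith
  have hK0 : 0 < K := by linarith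
  have h1 : ((Sad P (fun _ => 0) b 1).card : ℝ) ≤
      ∑ s ∈ Sad P (fun _ => 0) b 1, K ^ (2 * b 0 + 1) * ∏ _p ∈ s, (1 / K) := by
    rw [← nsmul_one, ← Finset.sum_const]
    apply Finset.sum_le_sum
    intro s hs
    unfold Sad at hs
    rw [Finset.mem_filter] at hs
    have h2 := hs.2 0 (by simp)
    rw [Finset.filter_true_of_mem (fun _ _ => rfl)] at h2
    rw [Finset.prod_const, one_div, inv_pow, ← div_eq_mul_inv, le_div_iff₀ (by positivity),
      one_mul]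
    exact pow_le_pow_right₀ hK1 h2
  refine h1.trans ?_
  rw [← Finset.mul_sum, mul_comm (Real.exp 1)]
  apply mul_le_mul_of_nonneg_left _ (by positivity)
  have h3 : ∑ s ∈ Sad P (fun _ => 0) b 1, ∏ _p ∈ s, (1 / K) ≤
      ∑ s ∈ P.powerset, ∏ _p ∈ s, (1 / K) := by
    apply Finset.sum_le_sum_of_subset_of_nonneg
    · exact Finset.filter_subset _ _
    · intro s _ _
      exact Finset.prod_nonneg fun _ _ => by positivity
  refine h3.trans ?_
  rw [← Finset.prod_one_add, Finset.prod_const]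
  have h4 : (1 : ℝ) + 1 / K ≤ Real.exp (1 / K) := by
    rw [add_comm]
    exact Real.add_one_le_exp _
  calc (1 + 1 / K) ^ P.card ≤ Real.exp (1 / K) ^ P.card :=
        pow_le_pow_left₀ (by positivity) h4 _
    _ = Real.exp (P.card * (1 / K)) := (Real.exp_nat_mul _ _).symm
    _ ≤ Real.exp 1 := by
        apply Real.exp_le_exp.2
        rw [mul_one_div, div_le_one hK0]
        linarith

/-- The sieve with one level. -/
theorem sv_sieve (hBL : T_BL) (Y Q β : ℕ) (z : ℝ) (hz : 0 ≤ z) (hQ : 1 ≤ Q) :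
    (Y : ℝ) * (∏ p ∈ svP z Q, (1 - (1 : ℝ) / p)) *
      (1 - (∑ p ∈ svP z Q, (1 : ℝ) / p) ^ (2 * β + 1) /
        ((2 * β + 1)! * ∏ p ∈ svP z Q, (1 - (1 : ℝ) / p))) -
      2 * (Real.exp 1 * (((svP z Q).card : ℝ) + 1) ^ (2 * β + 1)) ≤
        ((Bs Y z Q).card : ℝ) := by
  have h1 := hBL (Ioc Y (2 * Y)) (svP z Q) (fun _ => 1) (fun p b => p ∣ b * Q - 1)
    (fun _ => 0) (fun _ => β) 1 (fun p => (1 : ℝ) / p) Y (fun _ _ => zero_le_one)
    (Nat.cast_nonneg _) (by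
      intro p hp
      have h2 : (2 : ℝ) ≤ p := by exact_mod_cast (mem_svP hp).1.two_le
      refine ⟨by positivity, ?_⟩
      rw [div_lt_one (by linarith)]
      linarith) (fun _ _ => one_pos)
  rw [sv_Sf Y Q z hz hQ] at h1
  have h2 : Er (Ioc Y (2 * Y)) (fun _ => 1) (fun p b => p ∣ b * Q - 1)
      (fun p => (1 : ℝ) / p) Y (svP z Q) (fun _ => 0) (fun _ => β) 1 ≤
      Real.exp 1 * (((svP z Q).card : ℝ) + 1) ^ (2 * β + 1) := by
    refine le_trans ?_ (sv_count (svP z Q) (fun _ => β))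
    unfold Er
    have h3 := Finset.sum_le_card_nsmul (Sad (svP z Q) (fun _ => 0) (fun _ => β) 1)
      (fun s => |As (Ioc Y (2 * Y)) (fun _ => 1) (fun p b => p ∣ b * Q - 1) s -
        (Y : ℝ) * ∏ p ∈ s, (1 : ℝ) / p|) 1 (by
      intro s hs
      unfold Sad at hs
      rw [Finset.mem_filter, Finset.mem_powerset] at hs
      exact sv_term Y Q z hQ s hs.1)
    rwa [nsmul_eq_mul, mul_one] at h3
  rw [Finset.sum_range_one] at h1
  unfold qj at h1
  rw [Finset.filter_true_of_mem (fun _ _ => rfl)] at h1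
  push_cast at h1
  linarith

/-- Lower bound for the product. -/
theorem sv_prod (P : Finset ℕ) (N : ℕ) (hN : 1 ≤ N) (hP : ∀ p ∈ P, 2 ≤ p ∧ p ≤ N) (S : ℝ)
    (hS : ∑ p ∈ P, (1 : ℝ) / p ≤ S) :
    Real.exp (-(S + 2)) ≤ ∏ p ∈ P, (1 - (1 : ℝ) / p) := by
  have h1 : ∀ p ∈ P, Real.exp (-(1 / (p : ℝ)) - 2 * (1 / (p : ℝ) ^ 2)) ≤
      1 - (1 : ℝ) / p := by
    intro p hp
    have h2 : (2 : ℝ) ≤ p := by exact_mod_cast (hP p hp).1
    have h3 : 0 < 1 - (1 : ℝ) / p := by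
      have : (1 : ℝ) / p ≤ 1 / 2 := by
        apply one_div_le_one_div_of_le (by norm_num) h2
      linarith
    rw [← Real.exp_log h3]
    apply Real.exp_le_exp.2
    have h4 := Real.one_sub_inv_le_log_of_pos h3
    refine le_trans ?_ h4
    have h5 : (1 : ℝ) - (1 - 1 / (p : ℝ))⁻¹ = -(1 / ((p : ℝ) - 1)) := by
      have : (p : ℝ) - 1 ≠ 0 := by linarith
      have h6 : (1 : ℝ) - 1 / p = (p - 1) / p := by
        field_simp
      rw [h6, inv_div]
      field_simp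
      ring
    rw [h5]
    have h6 : 1 / ((p : ℝ) - 1) ≤ 1 / (p : ℝ) + 2 * (1 / (p : ℝ) ^ 2) := by
      have h7 : 1 / (p : ℝ) + 2 * (1 / (p : ℝ) ^ 2) = (p + 2) / (p : ℝ) ^ 2 := by
        field_simp
      rw [h7, div_le_div_iff₀ (by linarith) (by positivity)]
      nlinarith
    linarith
  have h2 : ∏ p ∈ P, Real.exp (-(1 / (p : ℝ)) - 2 * (1 / (p : ℝ) ^ 2)) ≤
      ∏ p ∈ P, (1 - (1 : ℝ) / p) :=
    Finset.prod_le_prod (fun p _ => (Real.exp_pos _).le) h1
  refine le_trans ?_ h2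
  rw [← Real.exp_sum]
  apply Real.exp_le_exp.2
  rw [Finset.sum_sub_distrib, Finset.sum_neg_distrib, ← Finset.mul_sum]
  have h3 : ∑ p ∈ P, 1 / (p : ℝ) ^ 2 ≤ 1 := by
    have h4 : P ⊆ Ioc 1 N := by
      intro p hp
      rw [Finset.mem_Ioc]
      have := hP p hp
      omega
    calc ∑ p ∈ P, 1 / (p : ℝ) ^ 2 ≤ ∑ p ∈ Ioc 1 N, 1 / (p : ℝ) ^ 2 :=
          Finset.sum_le_sum_of_subset_of_nonneg h4 fun _ _ _ => by positivity
      _ = ∑ p ∈ Ioc 1 N, ((p : ℝ) ^ 2)⁻¹ := by simp only [one_div]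
      _ ≤ ((1 : ℕ) : ℝ)⁻¹ - (N : ℝ)⁻¹ := sum_Ioc_inv_sq_le_sub (α := ℝ) one_ne_zero hN
      _ ≤ 1 := by
          have : 0 ≤ (N : ℝ)⁻¹ := by positivity
          rw [Nat.cast_one, inv_one]
          linarith
  linarith

/-- The quotient of the level is small. -/
theorem sv_qj (S l : ℝ) (β : ℕ) (hS0 : 0 ≤ S) (hSl : S ≤ l) (hl : 1 ≤ l) (hβ : 8 * l ≤ β) :
    S ^ (2 * β + 1) / ((2 * β + 1)! : ℝ) ≤ Real.exp (-(24 * l)) := by
  have h1 : (0 : ℝ) < Real.exp 2 := Real.exp_pos 2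
  have h2 := Real.pow_div_factorial_le_exp (Real.exp 2 * l) (by positivity) (2 * β + 1)
  rw [mul_pow, ← Real.exp_nat_mul] at h2
  have h3 : l ^ (2 * β + 1) / ((2 * β + 1)! : ℝ) ≤
      Real.exp (Real.exp 2 * l) * Real.exp (-(((2 * β + 1 : ℕ) : ℝ) * 2)) := by
    rw [Real.exp_neg, ← div_eq_mul_inv, le_div_iff₀ (Real.exp_pos _)]
    calc l ^ (2 * β + 1) / ((2 * β + 1)! : ℝ) * Real.exp (((2 * β + 1 : ℕ) : ℝ) * 2)
        = Real.exp (((2 * β + 1 : ℕ) : ℝ) * 2) * l ^ (2 * β + 1) / ((2 * β + 1)! : ℝ) := by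
          ring
      _ ≤ _ := h2
  have h4 : S ^ (2 * β + 1) / ((2 * β + 1)! : ℝ) ≤ l ^ (2 * β + 1) / ((2 * β + 1)! : ℝ) := by
    gcongr
  refine h4.trans (h3.trans ?_)
  rw [← Real.exp_add]
  apply Real.exp_le_exp.2
  push_cast
  have h5 : Real.exp 2 ≤ 8 := by
    have h6 := Real.exp_one_lt_d9
    have h7 : Real.exp 2 = Real.exp 1 * Real.exp 1 := by
      rw [← Real.exp_add]
      norm_num
    rw [h7]
    nlinarith [Real.exp_pos 1]
  have h8 : Real.exp 2 * l ≤ 8 * l := by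
    apply mul_le_mul_of_nonneg_right h5 (by linarith)
  linarith

theorem fa_exp2' : (4 : ℝ) ≤ Real.exp 2 := by
  have h5 : Real.exp 2 = Real.exp 1 * Real.exp 1 := by
    rw [← Real.exp_add]
    norm_num
  have h6 := Real.add_one_le_exp (1 : ℝ)
  rw [h5]
  nlinarith

/-- Numerical facts. -/
theorem sv_num {K l s : ℝ} (hK : 1000 ≤ K) (hl : K ≤ l) (hs : K * l ^ 4 ≤ s) :
    1000 * l ≤ s ∧ K ≤ s := by
  have h1 : l ≤ l ^ 4 := by
    calc l = l ^ 1 := (pow_one l).symm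
      _ ≤ l ^ 4 := pow_le_pow_right₀ (by linarith) (by norm_num)
  have h2 : 0 ≤ l ^ 4 := by positivity
  have h3 : 1000 * l ^ 4 ≤ K * l ^ 4 := mul_le_mul_of_nonneg_right hK h2
  exact ⟨by linarith, by linarith⟩

theorem sv_num2 {C l s : ℝ} (hl : 1000 ≤ l) (hCl : C ≤ l) (hs : 1000 * l ≤ s) :
    3 + ((16 * l + 3) * (s + 1) + (C + 4 + l / 2)) ≤ s ^ 2 / 10 := by
  have h1 : (16 * l + 3) * (s + 1) ≤ (17 * l) * (2 * s) := by
    apply mul_le_mul (by linarith) (by linarith) (by linarith) (by linarith)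
  have h2 : 1000 * l * s ≤ s * s := mul_le_mul_of_nonneg_right hs (by linarith)
  have h3 : 3 + (C + 4 + l / 2) ≤ 3 * l := by linarith
  have h4 : l * 1 ≤ l * s := mul_le_mul_of_nonneg_left (by linarith) (by linarith)
  nlinarith

theorem pf_SV (hBL : T_BL) (hMER : T_MER) (hAS : T_AS) : T_SV := by
  obtain ⟨C, hC, hMER⟩ := hMER
  obtain ⟨x₀, hx₀⟩ := hAS (1000 + 2 * C)
  refine ⟨Real.exp (-(C + 4)), x₀, Real.exp_pos _, fun x hx Q hQ => ?_⟩
  obtain ⟨hKx, hKlog, hKl, hKs, hs0, hs2, hlogs, hxexp, hg, hKg, hgs⟩ := hx₀ x hx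
  set s : ℝ := sx x with hs
  set l : ℝ := el x with hl
  set K : ℝ := 1000 + 2 * C with hK
  have hK1 : 1000 ≤ K := by linarith
  have hll : K ≤ l := by
    have h1 : K * 1 ≤ K * Real.log l ^ 2 := by
      apply mul_le_mul_of_nonneg_left _ (by linarith)
      have : 1 ≤ Real.log l := by linarith
      exact one_le_pow₀ this
    linarith
  have hl0 : 0 < l := by linarith
  obtain ⟨hs1000, hKs'⟩ := sv_num hK1 hll hKs
  set z : ℝ := Real.exp s with hz
  have hz0 : 0 < z := Real.exp_pos s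
  set Y : ℕ := Yn x with hY
  have hY1 : Real.exp (s ^ 2 / 10) / 2 ≤ (Y : ℝ) := by
    have h1 : x ^ (1 / 10 : ℝ) = Real.exp (s ^ 2 / 10) := by
      rw [hxexp, ← Real.exp_mul]
      congr 1
      ring
    have h2 : Real.exp (s ^ 2 / 10) - 1 < (Y : ℝ) := by
      rw [hY, ← h1]
      unfold Yn
      exact Nat.sub_one_lt_floor _
    have h3 : 2 ≤ Real.exp (s ^ 2 / 10) := by
      have h4 := Real.add_one_le_exp (s ^ 2 / 10)
      have h5 : 1000 * 1000 ≤ s * s := mul_le_mul (by linarith) (by linarith) (by norm_num)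
        hs0.le
      nlinarith
    linarith
  set β : ℕ := ⌈8 * l⌉₊ with hβ
  have hβ1 : 8 * l ≤ β := Nat.le_ceil _
  have hβ2 : (β : ℝ) < 8 * l + 1 := Nat.ceil_lt_add_one (by positivity)
  set P : Finset ℕ := svP z Q with hP
  set N : ℕ := ⌊z⌋₊ with hN
  have hz1000 : 1000 ≤ z := by
    have := Real.add_one_le_exp s
    linarith
  have hN3 : 3 ≤ N := Nat.le_floor (by push_cast; linarith)
  have hNz : (N : ℝ) ≤ z := Nat.floor_le hz0.le
  have hN0 : (0 : ℝ) < N := by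
    have : 0 < N := by omega
    exact_mod_cast this
  -- the sum over the primes
  have hS : ∑ p ∈ P, (1 : ℝ) / p ≤ l / 2 + C := by
    have h1 : P ⊆ PN N := by
      intro p hp
      unfold PN
      rw [Finset.mem_filter, Finset.mem_Icc]
      have h2 := mem_svP hp
      exact ⟨⟨h2.1.one_lt.le, h2.2.2⟩, h2.1⟩
    have h2 : ∑ p ∈ P, (1 : ℝ) / p ≤ ∑ p ∈ PN N, (1 : ℝ) / p :=
      Finset.sum_le_sum_of_subset_of_nonneg h1 fun _ _ _ => by positivity
    have h3 := hMER N hN3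
    have h4 : Real.log N ≤ s := by
      rw [Real.log_le_iff_le_exp hN0]
      exact hNz
    have h5 : 0 < Real.log N := Real.log_pos (by
      have : 1 < N := by omega
      exact_mod_cast this)
    have h6 : Real.log (Real.log N) ≤ l / 2 := by
      rw [← hlogs]
      exact Real.log_le_log h5 h4
    linarith
  have hS0 : 0 ≤ ∑ p ∈ P, (1 : ℝ) / p := Finset.sum_nonneg fun _ _ => by positivity
  have hprod := sv_prod P N (by omega) (fun p hp => ⟨(mem_svP hp).1.two_le, (mem_svP hp).2.2⟩)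
    (l / 2 + C) hS
  have hprod0 : 0 < ∏ p ∈ P, (1 - (1 : ℝ) / p) := (Real.exp_pos _).trans_le hprod
  have hq := sv_qj (∑ p ∈ P, (1 : ℝ) / p) l β hS0 (by linarith) (by linarith) hβ1
  have hsv := sv_sieve hBL Y Q β z hz0.le hQ
  rw [← hP] at hsv
  -- the level
  have hlev : (∑ p ∈ P, (1 : ℝ) / p) ^ (2 * β + 1) /
      ((2 * β + 1)! * ∏ p ∈ P, (1 - (1 : ℝ) / p)) ≤ 1 / 2 := by
    rw [← div_div, div_le_iff₀ hprod0]
    refine hq.trans ?_
    calc Real.exp (-(24 * l)) ≤ Real.exp (-1 + -(l / 2 + C + 2)) := by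
          apply Real.exp_le_exp.2
          linarith
      _ = Real.exp (-1) * Real.exp (-(l / 2 + C + 2)) := Real.exp_add _ _
      _ ≤ 1 / 2 * ∏ p ∈ P, (1 - (1 : ℝ) / p) := by
          apply mul_le_mul _ hprod (Real.exp_pos _).le (by norm_num)
          rw [Real.exp_neg, one_div]
          apply inv_anti₀ (by norm_num)
          have := Real.add_one_le_exp (1 : ℝ)
          linarith
  -- the error
  have hcard : (P.card : ℝ) + 1 ≤ Real.exp (s + 1) := by
    have h1 : P.card ≤ N := by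
      have h2 : P ⊆ Icc 1 N := by
        rw [hP]
        unfold svP
        exact Finset.filter_subset _ _
      have h3 := Finset.card_le_card h2
      rwa [Nat.card_Icc, Nat.add_sub_cancel] at h3
    have h2 : (P.card : ℝ) ≤ z := (Nat.cast_le.2 h1).trans hNz
    have h3 : Real.exp (s + 1) = z * Real.exp 1 := Real.exp_add _ _
    have h4 := Real.add_one_le_exp (1 : ℝ)
    rw [h3]
    nlinarith
  have hP0 : (0 : ℝ) ≤ (P.card : ℝ) + 1 := by
    have := Nat.cast_nonneg (α := ℝ) P.card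
    linarith
  have herr : 2 * (Real.exp 1 * ((P.card : ℝ) + 1) ^ (2 * β + 1)) ≤
      Real.exp (2 + (16 * l + 3) * (s + 1)) := by
    have h1 : ((P.card : ℝ) + 1) ^ (2 * β + 1) ≤ Real.exp ((16 * l + 3) * (s + 1)) := by
      calc ((P.card : ℝ) + 1) ^ (2 * β + 1) ≤ Real.exp (s + 1) ^ (2 * β + 1) :=
            pow_le_pow_left₀ hP0 hcard _
        _ = Real.exp (((2 * β + 1 : ℕ) : ℝ) * (s + 1)) := (Real.exp_nat_mul _ _).symm
        _ ≤ _ := by
            apply Real.exp_le_exp.2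
            apply mul_le_mul_of_nonneg_right _ (by linarith)
            push_cast
            linarith
    have h2 : (2 : ℝ) ≤ Real.exp 1 := by
      have := Real.add_one_le_exp (1 : ℝ)
      linarith
    have h3 : Real.exp 2 = Real.exp 1 * Real.exp 1 := by
      rw [← Real.exp_add]
      norm_num
    rw [Real.exp_add, h3, mul_assoc]
    apply mul_le_mul h2 _ (mul_nonneg (Real.exp_pos _).le (pow_nonneg hP0 _))
      (Real.exp_pos _).le
    exact mul_le_mul_of_nonneg_left h1 (Real.exp_pos _).le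
  have hexps : Real.exp (l / 2) = s := by
    rw [← hlogs]
    exact Real.exp_log hs0
  -- main term
  have hmain : (Y : ℝ) * Real.exp (-(l / 2 + C + 2)) / 2 ≤
      (Y : ℝ) * (∏ p ∈ P, (1 - (1 : ℝ) / p)) *
      (1 - (∑ p ∈ P, (1 : ℝ) / p) ^ (2 * β + 1) /
        ((2 * β + 1)! * ∏ p ∈ P, (1 - (1 : ℝ) / p))) := by
    rw [div_eq_mul_one_div]
    apply mul_le_mul _ (by linarith) (by norm_num) (by positivity)
    exact mul_le_mul_of_nonneg_left hprod (Nat.cast_nonneg _)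
  have hq4 : Real.exp (-(l / 2 + C + 2)) = Real.exp 2 * (Real.exp (-(C + 4)) / s) := by
    rw [← hexps, ← Real.exp_sub, ← Real.exp_add]
    congr 1
    ring
  have herr2 : Real.exp (2 + (16 * l + 3) * (s + 1)) ≤ (Y : ℝ) * (Real.exp (-(C + 4)) / s) := by
    have h1 := sv_num2 (by linarith) (by linarith : C ≤ l) hs1000
    have h2 : Real.exp (-(C + 4)) / s = Real.exp (-(C + 4 + l / 2)) := by
      rw [← hexps, ← Real.exp_sub]
      congr 1
      ring
    rw [h2]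
    have h3 : Real.exp (2 + (16 * l + 3) * (s + 1)) =
        Real.exp (3 + ((16 * l + 3) * (s + 1) + (C + 4 + l / 2))) * Real.exp (-1) *
          Real.exp (-(C + 4 + l / 2)) := by
      rw [← Real.exp_add, ← Real.exp_add]
      congr 1
      ring
    rw [h3]
    apply mul_le_mul_of_nonneg_right _ (Real.exp_pos _).le
    have h4 : Real.exp (-1) ≤ 1 / 2 := by
      rw [Real.exp_neg, one_div]
      apply inv_anti₀ (by norm_num)
      have := Real.add_one_le_exp (1 : ℝ)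
      linarith
    have h5 : Real.exp (3 + ((16 * l + 3) * (s + 1) + (C + 4 + l / 2))) ≤
        Real.exp (s ^ 2 / 10) := Real.exp_le_exp.2 h1
    calc Real.exp (3 + ((16 * l + 3) * (s + 1) + (C + 4 + l / 2))) * Real.exp (-1)
        ≤ Real.exp (s ^ 2 / 10) * (1 / 2) :=
          mul_le_mul h5 h4 (Real.exp_pos _).le (Real.exp_pos _).le
      _ = Real.exp (s ^ 2 / 10) / 2 := by ring
      _ ≤ (Y : ℝ) := hY1
  have hfin : Real.exp (-(C + 4)) * Y / s = (Y : ℝ) * (Real.exp (-(C + 4)) / s) := by ring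
  rw [hfin]
  have h4 := fa_exp2'
  have h5 : (Y : ℝ) * Real.exp (-(l / 2 + C + 2)) / 2 =
      Real.exp 2 / 2 * ((Y : ℝ) * (Real.exp (-(C + 4)) / s)) := by
    rw [hq4]
    ring
  rw [h5] at hmain
  have h6 : 0 ≤ (Y : ℝ) * (Real.exp (-(C + 4)) / s) := by positivity
  have h7 : 2 * ((Y : ℝ) * (Real.exp (-(C + 4)) / s)) ≤
      Real.exp 2 / 2 * ((Y : ℝ) * (Real.exp (-(C + 4)) / s)) :=
    mul_le_mul_of_nonneg_right (by linarith) h6
  linarith

end Pool.Agent.H99.NOK
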